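import Pool.Agent.N734.MZ.Mu
import Pool.Agent.N734.MZ.Few

/-!
# Relations between the values at `2a, ..., 2a` hold for all families with Euler's formula in terms of `Z(2)`
-/

set_option autoImplicit false

namespace Pool.Agent.N628.MOT

open Finset
open Pool.Agent.X90.DB (Ad ix ex ex_ne)
open Pool.Agent.Y760.ZG (mz)
open Pool.Agent.N734.MZ (St tpi ec newton st_prod mz_euler tpi_tr)

/-- the rational number `ζ(2 m) / ζ(2) ^ m` -/
noncomputable def cc (m : ℕ) : ℚ := ec m * (-24) ^ m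

lemma tpi_sq : tpi ^ 2 = -24 * ((mz [2] : ℝ) : ℂ) := by
  have h3 := mz_euler 1 le_rfl
  rw [show 2 * 1 = 2 from rfl] at h3
  rw [h3, ec]
  have h4 : bernoulli (2 * 1) = 1 / 6 := by
    rw [show 2 * 1 = 2 from rfl, bernoulli_two]
    norm_num
  rw [h4]
  norm_num [Nat.factorial]
  ring

lemma mz_cc (m : ℕ) (hm : 1 ≤ m) : mz [2 * m] = (cc m : ℝ) * mz [2] ^ m := by
  have h := mz_euler m hm
  have h2 : tpi ^ (2 * m) = (-24) ^ m * ((mz [2] : ℝ) : ℂ) ^ m := by
    rw [pow_mul, tpi_sq, mul_pow]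
  rw [h2] at h
  have h3 : ((mz [2 * m] : ℝ) : ℂ) = (((cc m : ℝ) * mz [2] ^ m : ℝ) : ℂ) := by
    rw [h, cc]
    push_cast
    ring
  exact_mod_cast h3

lemma mz2_tr : Transcendental ℚ (mz [2] : ℝ) := by
  intro h
  have h1 : IsAlgebraic ℚ ((mz [2] : ℝ) : ℂ) := h.algebraMap
  have h2 : IsAlgebraic ℚ (tpi ^ 2) := by
    rw [tpi_sq]
    have h3 : IsAlgebraic ℚ (-24 : ℂ) := by
      have := isAlgebraic_algebraMap (R := ℚ) (A := ℂ) (-24 : ℚ)
      simpa using this
    exact h3.mul h1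
  exact tpi_tr (h2.of_pow (by norm_num))

variable {A : Type} [CommRing A] [Algebra ℚ A]

/-- the values at `2a, ..., 2a` in terms of `ζ(2)` and `Z(2)`, with the same rational number -/
theorem rep_two (Z : List ℕ → A) (hZ : St Z)
    (h0 : ∀ m, 1 ≤ m → Z [2 * m] = algebraMap ℚ A (cc m) * Z [2] ^ m) (a n : ℕ) (ha : 1 ≤ a) (hn : 1 ≤ n) :
    ∃ (r : ℚ) (e : ℕ), mz (List.replicate n (2 * a)) = (r : ℝ) * mz [2] ^ e ∧
      Z (List.replicate n (2 * a)) = algebraMap ℚ A r * Z [2] ^ e := by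
  have h := (newton (fun u => (mz u, Z u) : List ℕ → ℝ × A)
    (st_prod _ Z (fun u v hu hv => Pool.Agent.X90.DC.mz_stuffle u v hu hv) hZ)
    (fun n => if Even n then Submodule.span ℚ {((mz [2] ^ (n / 2), Z [2] ^ (n / 2)) : ℝ × A)} else ⊥)
    (by
      rw [if_pos (by decide), Nat.zero_div, pow_zero, pow_zero]
      exact Submodule.mem_span_singleton_self _) (by
    intro m n a b ha hb
    by_cases hm : Even m
    · by_cases hn : Even n
      · rw [if_pos hm, Submodule.mem_span_singleton] at ha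
        rw [if_pos hn, Submodule.mem_span_singleton] at hb
        rw [if_pos (hm.add hn), Submodule.mem_span_singleton]
        obtain ⟨r, rfl⟩ := ha
        obtain ⟨t, rfl⟩ := hb
        refine ⟨r * t, ?_⟩
        have hdiv : (m + n) / 2 = m / 2 + n / 2 := by
          obtain ⟨c, rfl⟩ := hm
          obtain ⟨d, rfl⟩ := hn
          omega
        rw [smul_mul_smul_comm, Prod.mk_mul_mk, ← pow_add, ← pow_add, hdiv]
      · rw [if_neg hn, Submodule.mem_bot] at hb
        rw [hb, mul_zero]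
        exact Submodule.zero_mem _
    · rw [if_neg hm, Submodule.mem_bot] at ha
      rw [ha, zero_mul]
      exact Submodule.zero_mem _) (2 * a) (by omega) (by
    intro j hj
    have hja : 1 ≤ j * a := Nat.mul_pos hj ha
    rw [show j * (2 * a) = 2 * (j * a) by ring]
    have h1 := h0 (j * a) hja
    have h2 := mz_cc (j * a) hja
    rw [if_pos (even_two_mul _), Submodule.mem_span_singleton, Nat.mul_div_cancel_left _ (by norm_num : 0 < 2)]
    refine ⟨cc (j * a), ?_⟩
    rw [h1, h2, Prod.smul_mk, Algebra.smul_def, Algebra.smul_def]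
    rfl) n).1
  rw [ex_ne _ (by
    intro h
    have := congrArg List.length h
    simp at this
    omega)] at h
  have hev : Even (n * (2 * a)) := by
    rw [show n * (2 * a) = 2 * (n * a) by ring]
    exact even_two_mul _
  rw [if_pos hev, Submodule.mem_span_singleton] at h
  obtain ⟨r, hr⟩ := h
  rw [Prod.smul_mk, Prod.mk.injEq, Algebra.smul_def, Algebra.smul_def] at hr
  exact ⟨r, n * (2 * a) / 2, hr.1.symm, hr.2.symm⟩

/-- **relations between the values at `2a, ..., 2a` hold for all families with Euler's formula** -/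
theorem even_transfer_two {σ : Type} (g : σ → List ℕ)
    (hg : ∀ i, ∃ n a, 1 ≤ n ∧ 1 ≤ a ∧ g i = List.replicate n (2 * a))
    (Z : List ℕ → A) (hZ : St Z)
    (h0 : ∀ m, 1 ≤ m → Z [2 * m] = algebraMap ℚ A (cc m) * Z [2] ^ m) (f : MvPolynomial σ ℚ)
    (hf : MvPolynomial.aeval (fun i => mz (g i)) f = 0) :
    MvPolynomial.aeval (fun i => Z (g i)) f = 0 := by
  have h1 : ∀ i, ∃ (r : ℚ) (e : ℕ), mz (g i) = (r : ℝ) * mz [2] ^ e ∧
      Z (g i) = algebraMap ℚ A r * Z [2] ^ e := by
    intro i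
    obtain ⟨n, a, hn, ha, hi⟩ := hg i
    rw [hi]
    exact rep_two Z hZ h0 a n ha hn
  choose r e h1 h2 using h1
  set φ : MvPolynomial σ ℚ →ₐ[ℚ] Polynomial ℚ :=
    MvPolynomial.aeval (fun i => Polynomial.C (r i) * Polynomial.X ^ (e i)) with hφ
  have h3 : Polynomial.aeval (mz [2]) (φ f) = 0 := by
    rw [← hf, hφ, ← AlgHom.comp_apply]
    congr 1
    refine MvPolynomial.algHom_ext fun i => ?_
    rw [AlgHom.comp_apply, MvPolynomial.aeval_X, MvPolynomial.aeval_X, map_mul, Polynomial.aeval_C, map_pow,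
      Polynomial.aeval_X, h1 i]
    rfl
  have h4 : φ f = 0 := by
    by_contra hne
    exact mz2_tr ⟨φ f, hne, h3⟩
  have h5 : (Polynomial.aeval (Z [2])) (φ f) = MvPolynomial.aeval (fun i => Z (g i)) f := by
    rw [hφ, ← AlgHom.comp_apply]
    congr 1
    refine MvPolynomial.algHom_ext fun i => ?_
    rw [AlgHom.comp_apply, MvPolynomial.aeval_X, MvPolynomial.aeval_X, map_mul, Polynomial.aeval_C, map_pow,
      Polynomial.aeval_X, h2 i]
  rw [← h5, h4, map_zero]

end Pool.Agent.N628.MOT
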